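import Pool.Agent.Lib.StarTree.Sharp2

namespace Pool.Agent.Results.MP_2a5f71_co.DegreeSum

open StarTree

/-- For every tree `T` on `n` labelled vertices with degrees `d_x` and `L` leaves the first support
count lies between `n * ∑ x, 2 ^ d_x - 2 n ^ 2 + n + 1 - L` and
`n * ∑ x, 2 ^ d_x - n ^ 2 + 1 - L`. -/
theorem result (n : ℕ) (T : SimpleGraph (Fin n)) (hT : T.IsTree) :
    n * ∑ x, 2 ^ (T.neighborSet x).ncard + n + 1 ≤
        mu T (n + 1) + 2 * n ^ 2 + {l : Fin n | (T.neighborSet l).ncard = 1}.ncard ∧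
      mu T (n + 1) + {l : Fin n | (T.neighborSet l).ncard = 1}.ncard + n ^ 2 ≤
        n * ∑ x, 2 ^ (T.neighborSet x).ncard + 1 := by
  have h1 : ∑ x, 2 ^ (T.neighborSet x).ncard = ∑ x, 2 ^ (nb T x).card :=
    Finset.sum_congr rfl fun x _ => by rw [ncard_eq]
  have h2 : {l : Fin n | (T.neighborSet l).ncard = 1}.ncard = (leaves T).card := by
    rw [← Set.ncard_coe_finset]
    congr 1
    ext l
    simp [leaves, ncard_eq]
  rw [h1, h2]
  exact ⟨mu_lower_opt T hT, mu_upper T hT⟩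

end Pool.Agent.Results.MP_2a5f71_co.DegreeSum
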