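import Pool.Agent.Lib.StarTree.Final

namespace Pool.Agent.Results.MP_2a5f71_co.Stars

open StarTree

/-- Let `T₁`, `T₂` be trees on `n` labelled vertices, `T₁` a star, and suppose that their support
counts agree at the single value `m = n + 1`. Then `T₂` is `T₁` or its label reversal. -/
theorem result (n : ℕ) (T₁ T₂ : SimpleGraph (Fin n)) (h₁ : T₁.IsTree) (h₂ : T₂.IsTree)
    (hs : ∃ c, ∀ x, x ≠ c → T₁.Adj c x) (h : mu T₁ (n + 1) = mu T₂ (n + 1)) :
    T₂ = T₁ ∨ T₂ = T₁.comap Fin.rev :=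
  star_main T₁ T₂ h₁ h₂ hs h

end Pool.Agent.Results.MP_2a5f71_co.Stars
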